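import Pool.Agent.N939.ME.Stm

/-!
PROJECT ME, piece ME17 (S_G1): conditional moments of block sums (helper749).
-/

set_option autoImplicit false
open MeasureTheory ProbabilityTheory Filter Topology Finset
open scoped Classical
open Pool.Agent.N939.ME

namespace Pool.Agent.N749.ME

theorem g1 (hTT : S_TT) (hML : S_ML) : S_G1 := by
  intro S mS Q _ ν _ hν f hf hf2
  obtain ⟨hT1, hT2, hT3, -, -, -⟩ := hTT S Q ν hν
  have hfin : ∀ j, Measurable (GG Q f j) ∧ MemLp (GG Q f j) 2 ν ∧ Measurable (VV Q f j) ∧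
      Integrable (VV Q f j) ν := by
    intro j
    induction j with
    | zero =>
      refine ⟨?_, ?_, ?_, ?_⟩
      · show Measurable fun _ : S => (0:ℝ)
        exact measurable_const
      · show MemLp (fun _ : S => (0:ℝ)) 2 ν
        exact memLp_const 0
      · show Measurable fun _ : S => (0:ℝ)
        exact measurable_const
      · show Integrable (fun _ : S => (0:ℝ)) ν
        exact integrable_const 0
    | succ j ih =>
      obtain ⟨a, b, c, d⟩ := ih
      have hTG : MemLp (TT Q (GG Q f j)) 2 ν := (hT3 _ b).1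
      have hTGm : Measurable (TT Q (GG Q f j)) := hT1 _ a
      have hTV : Integrable (TT Q (VV Q f j)) ν := (hT2 _ d).1
      have hTVm : Measurable (TT Q (VV Q f j)) := hT1 _ c
      refine ⟨hf.add hTGm, hf2.add hTG, ?_, ?_⟩
      · show Measurable fun x => f x ^ 2 + 2 * f x * TT Q (GG Q f j) x + TT Q (VV Q f j) x
        exact ((hf.pow_const 2).add ((hf.const_mul 2).mul hTGm)).add hTVm
      · show Integrable (fun x => f x ^ 2 + 2 * f x * TT Q (GG Q f j) x + TT Q (VV Q f j) x) ν
        refine (hf2.integrable_sq.add ?_).add hTV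
        have h := (hf2.integrable_mul hTG).const_mul 2
        refine h.congr (Eventually.of_forall fun x => ?_)
        simp only [Pi.mul_apply]
        ring
  refine ⟨hfin, ?_⟩
  intro Ω mΩ μ _ X hX
  obtain ⟨hM1, hM2, -⟩ := hML S Q ν hν Ω μ X hX
  have hle : ∀ n, FX X n ≤ mΩ := fun n => iSup₂_le fun i _ => (hX.meas i).comap_le
  have hmono : ∀ n, FX X n ≤ FX X (n + 1) := fun n =>
    iSup₂_le fun i hi => le_iSup₂_of_le i (le_trans hi (Nat.le_succ n)) le_rfl
  have hXm : ∀ n, Measurable[FX X n] (X n) := fun n =>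
    (comap_measurable (X n)).mono (le_iSup₂_of_le n le_rfl le_rfl) le_rfl
  have hmp : ∀ n, MeasurePreserving (X n) μ ν := fun n => ⟨hX.meas n, hM1 n⟩
  have hLp : ∀ (n : ℕ) (h : S → ℝ), MemLp h 2 ν → MemLp (fun ω => h (X n ω)) 2 μ :=
    fun n h hh => hh.comp_measurePreserving (hmp n)
  have hInt : ∀ (n : ℕ) (h : S → ℝ), Integrable h ν → Integrable (fun ω => h (X n ω)) μ :=
    fun n h hh => (hmp n).integrable_comp_of_integrable hh
  have hfX : ∀ n, MemLp (fun ω => f (X n ω)) 2 μ := fun n => hLp n f hf2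
  have hSLp : ∀ j t : ℕ, MemLp (fun ω => ∑ i ∈ range j, f (X (t + i) ω)) 2 μ := by
    intro j t
    exact memLp_finsetSum _ fun i _ => hfX (t + i)
  have hsplit : ∀ (j t : ℕ) (ω : Ω), ∑ i ∈ range (j + 1), f (X (t + i) ω)
      = f (X t ω) + ∑ i ∈ range j, f (X (t + 1 + i) ω) := by
    intro j t ω
    rw [sum_range_succ', add_comm]
    congr 1
    refine sum_congr rfl fun i _ => ?_
    congr 2
    omega
  have main : ∀ j t : ℕ,
      μ[fun ω => ∑ i ∈ range j, f (X (t + i) ω) | FX X t] =ᵐ[μ] (fun ω => GG Q f j (X t ω)) ∧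
      μ[fun ω => (∑ i ∈ range j, f (X (t + i) ω)) ^ 2 | FX X t]
        =ᵐ[μ] fun ω => VV Q f j (X t ω) := by
    intro j
    induction j with
    | zero =>
      intro t
      constructor
      · have : (fun ω => ∑ i ∈ range 0, f (X (t + i) ω)) = (0 : Ω → ℝ) := by
          funext ω; simp
        rw [this, condExp_zero]
        exact Eventually.of_forall fun ω => rfl
      · have : (fun ω => (∑ i ∈ range 0, f (X (t + i) ω)) ^ 2) = (0 : Ω → ℝ) := by
          funext ω; simp
        rw [this, condExp_zero]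
        exact Eventually.of_forall fun ω => rfl
    | succ j ih =>
      intro t
      obtain ⟨ih1, ih2⟩ := ih (t + 1)
      obtain ⟨gm, gl, vm, vi⟩ := hfin j
      -- the tail block sum
      set Z : Ω → ℝ := fun ω => ∑ i ∈ range j, f (X (t + 1 + i) ω) with hZ
      have hZL : MemLp Z 2 μ := hSLp j (t + 1)
      have hZi : Integrable Z μ := hZL.integrable (by norm_num)
      have hZ2i : Integrable (fun ω => Z ω ^ 2) μ := hZL.integrable_sq
      have hZ1 : μ[Z | FX X t] =ᵐ[μ] fun ω => TT Q (GG Q f j) (X t ω) := by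
        have h1 : μ[μ[Z | FX X (t + 1)] | FX X t] =ᵐ[μ] μ[Z | FX X t] :=
          condExp_condExp_of_le (hmono t) (hle (t + 1))
        have h2 : μ[μ[Z | FX X (t + 1)] | FX X t]
            =ᵐ[μ] μ[fun ω => GG Q f j (X (t + 1) ω) | FX X t] := condExp_congr_ae ih1
        exact (h1.symm.trans h2).trans (hM2 t _ gm (gl.integrable (by norm_num)))
      have hZ2 : μ[fun ω => Z ω ^ 2 | FX X t] =ᵐ[μ] fun ω => TT Q (VV Q f j) (X t ω) := by
        have h1 : μ[μ[fun ω => Z ω ^ 2 | FX X (t + 1)] | FX X t]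
            =ᵐ[μ] μ[fun ω => Z ω ^ 2 | FX X t] :=
          condExp_condExp_of_le (hmono t) (hle (t + 1))
        have h2 : μ[μ[fun ω => Z ω ^ 2 | FX X (t + 1)] | FX X t]
            =ᵐ[μ] μ[fun ω => VV Q f j (X (t + 1) ω) | FX X t] := condExp_congr_ae ih2
        exact (h1.symm.trans h2).trans (hM2 t _ vm vi)
      have hfm : StronglyMeasurable[FX X t] (fun ω => f (X t ω)) :=
        (hf.comp (hXm t)).stronglyMeasurable
      have hfi : Integrable (fun ω => f (X t ω)) μ := (hfX t).integrable (by norm_num)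
      have hf2i : Integrable (fun ω => f (X t ω) ^ 2) μ := (hfX t).integrable_sq
      have hfm2 : StronglyMeasurable[FX X t] (fun ω => f (X t ω) ^ 2) :=
        ((hf.pow_const 2).comp (hXm t)).stronglyMeasurable
      have hfm3 : StronglyMeasurable[FX X t] (fun ω => 2 * f (X t ω)) :=
        ((hf.const_mul 2).comp (hXm t)).stronglyMeasurable
      constructor
      · have e : (fun ω => ∑ i ∈ range (j + 1), f (X (t + i) ω))
            = (fun ω => f (X t ω)) + Z := by
          funext ω; exact hsplit j t ω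
        rw [e]
        have h1 := condExp_add (m := FX X t) hfi hZi
        have h2 : μ[fun ω => f (X t ω) | FX X t] = fun ω => f (X t ω) :=
          condExp_of_stronglyMeasurable (hle t) hfm hfi
        filter_upwards [h1, hZ1] with ω a b
        rw [a, Pi.add_apply, h2, b]
        rfl
      · have hprod : Integrable ((fun ω => 2 * f (X t ω)) * Z) μ := by
          have h := ((hfX t).integrable_mul hZL).const_mul 2
          refine h.congr (Eventually.of_forall fun ω => ?_)
          simp only [Pi.mul_apply]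
          ring
        have e : (fun ω => (∑ i ∈ range (j + 1), f (X (t + i) ω)) ^ 2)
            = ((fun ω => f (X t ω) ^ 2) + (fun ω => 2 * f (X t ω)) * Z) + fun ω => Z ω ^ 2 := by
          funext ω
          rw [hsplit j t ω]
          simp only [Pi.add_apply, Pi.mul_apply, hZ]
          ring
        rw [e]
        have h0 := condExp_add (m := FX X t) (hf2i.add hprod) hZ2i
        have h1 := condExp_add (m := FX X t) hf2i hprod
        have h2 : μ[fun ω => f (X t ω) ^ 2 | FX X t] = fun ω => f (X t ω) ^ 2 :=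
          condExp_of_stronglyMeasurable (hle t) hfm2 hf2i
        have h3 : μ[(fun ω => 2 * f (X t ω)) * Z | FX X t]
            =ᵐ[μ] (fun ω => 2 * f (X t ω)) * μ[Z | FX X t] :=
          condExp_mul_of_stronglyMeasurable_left hfm3 hprod hZi
        filter_upwards [h0, h1, h3, hZ1, hZ2] with ω a b c d e'
        rw [a, Pi.add_apply, b, Pi.add_apply, h2, c, Pi.mul_apply, d, e']
        rfl
  have hnn : ∀ j, ∀ᵐ x ∂ν, 0 ≤ VV Q f j x := by
    intro j
    have h1 : 0 ≤ᵐ[μ] μ[fun ω => (∑ i ∈ range j, f (X (0 + i) ω)) ^ 2 | FX X 0] :=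
      condExp_nonneg (Eventually.of_forall fun ω => sq_nonneg _)
    have h2 : ∀ᵐ ω ∂μ, 0 ≤ VV Q f j (X 0 ω) := by
      filter_upwards [h1, (main j 0).2] with ω a b
      rw [← b]; exact a
    have h3 : ∀ᵐ x ∂(μ.map (X 0)), 0 ≤ VV Q f j x :=
      (ae_map_iff (hX.meas 0).aemeasurable
        (measurableSet_le measurable_const (hfin j).2.2.1)).2 h2
    rwa [hM1 0] at h3
  refine ⟨hnn, fun t j => (main j t).1, fun t j => (main j t).2, fun j => ?_⟩
  have h1 : ∫ ω, (μ[fun ω => (∑ i ∈ range j, f (X (0 + i) ω)) ^ 2 | FX X 0]) ω ∂μ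
      = ∫ ω, (∑ i ∈ range j, f (X (0 + i) ω)) ^ 2 ∂μ := integral_condExp (hle 0)
  have h2 : ∫ ω, SS f X j ω ^ 2 ∂μ = ∫ ω, (∑ i ∈ range j, f (X (0 + i) ω)) ^ 2 ∂μ := by
    refine integral_congr_ae (Eventually.of_forall fun ω => ?_)
    simp only [SS, zero_add]
  rw [h2, ← h1, integral_congr_ae (main j 0).2, ← hM1 0]
  rw [integral_map (hX.meas 0).aemeasurable]
  exact (hfin j).2.2.1.aestronglyMeasurable

end Pool.Agent.N749.ME
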