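import Pool.Agent.N939.ME.Stm

/-!
PROJECT ME, piece ME19 (S_G3): linear growth of the second moments (helper749).
-/

set_option autoImplicit false
open MeasureTheory ProbabilityTheory Filter Topology Finset
open scoped Classical
open Pool.Agent.N939.ME

namespace Pool.Agent.N749.ME

theorem g3 (hENP : S_ENP) (hEN : S_EN) (hVAR : S_VAR) : S_G3 := by
  intro S _ Q _ ν _ hν f Φ Ψ hR Ω _ μ _ X hX
  have key : ∀ n : ℕ, ∫ ω, SS f X n ω ^ 2 ∂μ = enu Q ν f (fun _ => Set.univ) n := by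
    intro n
    have h1 := (hEN S Q ν hν Ω μ X hX f hR.mf hR.lf (fun _ => Set.univ)
      (fun _ => MeasurableSet.univ) n).2
    rw [← h1]
    refine integral_congr_ae (Eventually.of_forall fun ω => ?_)
    have h2 := (hENP (fun t => f (X t ω)) (fun t => X t ω ∈ (Set.univ : Set S)) n).2.2
      (fun t _ => Set.mem_univ _)
    exact h2.symm
  have hlim : Tendsto (fun n : ℕ => (∫ ω, SS f X n ω ^ 2 ∂μ) / n) atTop
      (𝓝 (sg Q ν f Φ Ψ)) := by
    have h := hVAR S Q ν hν f Φ Ψ hR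
    refine h.congr fun n => ?_
    rw [key n]
  have hnn : ∀ n : ℕ, 0 ≤ ∫ ω, SS f X n ω ^ 2 ∂μ := fun n =>
    integral_nonneg fun ω => sq_nonneg _
  refine ⟨ge_of_tendsto' hlim fun n => div_nonneg (hnn n) (Nat.cast_nonneg n), hlim, ?_⟩
  obtain ⟨C, hC⟩ := hlim.bddAbove_range
  refine ⟨max C 1, lt_of_lt_of_le one_pos (le_max_right _ _), fun n => ?_⟩
  rcases Nat.eq_zero_or_pos n with rfl | hn
  · simp [SS]
  · have h1 : (∫ ω, SS f X n ω ^ 2 ∂μ) / n ≤ C := hC ⟨n, rfl⟩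
    have hn' : (0:ℝ) < n := Nat.cast_pos.mpr hn
    rw [div_le_iff₀ hn'] at h1
    exact h1.trans (mul_le_mul_of_nonneg_right (le_max_left _ _) hn'.le)

end Pool.Agent.N749.ME
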