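import Pool.Agent.N939.ME.Stm3

/-!
PROJECT ME, piece ME31 (S_OPF): the square function estimate for operators on functions
(helper749).
-/

set_option autoImplicit false
open MeasureTheory ProbabilityTheory Filter Topology Finset
open scoped Classical
open Pool.Agent.N939.ME

namespace Pool.Agent.N749.ME

/-- the square of the norm in `L²` -/
theorem normsq_toLp {S : Type} [MeasurableSpace S] (ν : Measure S) (h : S → ℝ)
    (hh : MemLp h 2 ν) : ‖hh.toLp h‖ ^ 2 = ∫ x, h x ^ 2 ∂ν := by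
  rw [← real_inner_self_eq_norm_sq, L2.inner_def]
  refine integral_congr_ae ?_
  filter_upwards [hh.coeFn_toLp] with x hx
  rw [hx]
  simp [sq]

theorem toLp_sum {S : Type} [MeasurableSpace S] (ν : Measure S) (c : ℕ → ℝ) (h : ℕ → S → ℝ)
    (hh : ∀ n, MemLp (h n) 2 ν) (N : ℕ)
    (hs : MemLp (fun x => ∑ n ∈ range N, c n * h n x) 2 ν) :
    ∑ n ∈ range N, c n • (hh n).toLp (h n) = hs.toLp (fun x => ∑ n ∈ range N, c n * h n x) := by
  induction N with
  | zero =>
    rw [sum_range_zero]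
    symm
    rw [Lp.eq_zero_iff_ae_eq_zero]
    refine (MemLp.coeFn_toLp hs).trans (Eventually.of_forall fun x => ?_)
    simp
  | succ N ih =>
    have h1 : MemLp (fun x => ∑ n ∈ range N, c n * h n x) 2 ν :=
      memLp_finsetSum _ fun j _ => (hh j).const_mul (c j)
    have h2 : MemLp (fun x => c N * h N x) 2 ν := (hh N).const_mul (c N)
    rw [sum_range_succ, ih h1]
    have e1 : c N • (hh N).toLp (h N) = h2.toLp (fun x => c N * h N x) := by
      rw [← MemLp.toLp_const_smul]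
      rfl
    rw [e1, ← MemLp.toLp_add]
    refine MemLp.toLp_congr _ _ (Eventually.of_forall fun x => ?_)
    exact (sum_range_succ (fun n => c n * h n x) N).symm

theorem opf (hOP : S_OP) : S_OPF := by
  intro δ hδ S mS ν _ O hO1 hO2 hO3 hO4 f g hf hg hOf hlim
  obtain ⟨C0, hC0, hmain⟩ := hOP
  -- the operator on `Lp`
  let A0 : Lp ℝ 2 ν →ₗ[ℝ] Lp ℝ 2 ν :=
    { toFun := fun h => (hO2 h (Lp.memLp h)).1.toLp (O h)
      map_add' := by
        intro h h'
        rw [← MemLp.toLp_add]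
        refine MemLp.toLp_congr _ _ ?_
        refine (hO1 _ _ (Lp.coeFn_add h h')).trans ?_
        exact hO3 h h' (Lp.memLp h) (Lp.memLp h')
      map_smul' := by
        intro c h
        rw [RingHom.id_apply, ← MemLp.toLp_const_smul]
        refine MemLp.toLp_congr _ _ ?_
        refine (hO1 _ _ (Lp.coeFn_smul c h)).trans ?_
        exact hO4 h c (Lp.memLp h) }
  have hA0 : ∀ h : Lp ℝ 2 ν, A0 h = (hO2 h (Lp.memLp h)).1.toLp (O h) := fun h => rfl
  have hA0n : ∀ h : Lp ℝ 2 ν, ‖A0 h‖ ≤ 1 * ‖h‖ := by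
    intro h
    rw [one_mul, ← abs_of_nonneg (norm_nonneg (A0 h)), ← abs_of_nonneg (norm_nonneg h)]
    refine sq_le_sq.1 ?_
    rw [hA0, normsq_toLp]
    refine (hO2 h (Lp.memLp h)).2.trans (le_of_eq ?_)
    rw [← normsq_toLp ν h (Lp.memLp h), Lp.toLp_coeFn]
  let A : Lp ℝ 2 ν →L[ℝ] Lp ℝ 2 ν := A0.mkContinuous 1 hA0n
  have hA : ∀ h : Lp ℝ 2 ν, A h = (hO2 h (Lp.memLp h)).1.toLp (O h) := fun h => rfl
  have hAn : ∀ h : Lp ℝ 2 ν, ‖A h‖ ≤ ‖h‖ := fun h => by
    have := hA0n h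
    rwa [one_mul] at this
  have hit : ∀ (h : S → ℝ), MemLp h 2 ν → ∀ n, MemLp (O^[n] h) 2 ν := by
    intro h hh n
    induction n with
    | zero => exact hh
    | succ n ih =>
      rw [Function.iterate_succ_apply']
      exact (hO2 _ ih).1
  have hpow : ∀ (h : S → ℝ) (hh : MemLp h 2 ν) (n : ℕ),
      (A ^ n) (hh.toLp h) = (hit h hh n).toLp (O^[n] h) := by
    intro h hh n
    induction n with
    | zero => rfl
    | succ n ih =>
      rw [pow_succ', mul_apply_eq_comp, ih, hA]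
      refine MemLp.toLp_congr _ _ ?_
      rw [Function.iterate_succ_apply']
      exact hO1 _ _ (MemLp.coeFn_toLp _)
  set g' : Lp ℝ 2 ν := hg.toLp g with hg'
  set f' : Lp ℝ 2 ν := hf.toLp f with hf'
  have hT : Tendsto (fun N : ℕ => g' - ∑ n ∈ range N, δ n • (A ^ (n + 1)) g') atTop (𝓝 f') := by
    rw [tendsto_iff_norm_sub_tendsto_zero]
    have h1 : ∀ N : ℕ, ‖g' - ∑ n ∈ range N, δ n • (A ^ (n + 1)) g' - f'‖
        = Real.sqrt (∫ x, (g x - ∑ n ∈ range N, δ n * O^[n + 1] g x - f x) ^ 2 ∂ν) := by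
      intro N
      have hs : MemLp (fun x => ∑ n ∈ range N, δ n * O^[n + 1] g x) 2 ν :=
        memLp_finsetSum _ fun j _ => (hit g hg (j + 1)).const_mul (δ j)
      have e1 : ∑ n ∈ range N, δ n • (A ^ (n + 1)) g'
          = hs.toLp (fun x => ∑ n ∈ range N, δ n * O^[n + 1] g x) := by
        rw [← toLp_sum ν δ (fun n => O^[n + 1] g) (fun n => hit g hg (n + 1)) N hs]
        refine sum_congr rfl fun n _ => ?_
        rw [hg', hpow g hg (n + 1)]
      have hd : MemLp (fun x => g x - ∑ n ∈ range N, δ n * O^[n + 1] g x - f x) 2 ν :=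
        (hg.sub hs).sub hf
      have e2 : g' - ∑ n ∈ range N, δ n • (A ^ (n + 1)) g' - f' = hd.toLp _ := by
        rw [e1, hg', hf', ← MemLp.toLp_sub, ← MemLp.toLp_sub]
        rfl
      rw [e2, ← normsq_toLp ν _ hd, Real.sqrt_sq (norm_nonneg _)]
    simp_rw [h1]
    have h2 := (Real.continuous_sqrt.tendsto 0).comp hlim
    rw [Real.sqrt_zero] at h2
    exact h2
  refine ⟨C0 * ‖g'‖ ^ 2 + 1, fun R hR0 hR1 => ?_⟩
  obtain ⟨n0, hn0⟩ := hmain δ hδ (Lp ℝ 2 ν) A hAn g' f' hT R hR0 hR1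
  refine ⟨n0, fun n hn => ?_⟩
  refine le_trans (le_of_eq ?_) (hn0 n hn)
  -- Fubini
  have hfst : MeasurePreserving (Prod.fst : ℝ × S → ℝ) (nuh ν) lam := by
    unfold nuh; exact measurePreserving_fst
  have hsnd : MeasurePreserving (Prod.snd : ℝ × S → S) (nuh ν) ν := by
    unfold nuh; exact measurePreserving_snd
  have hae1 : ∀ᵐ p ∂(nuh ν), 0 < p.1 ∧ p.1 < 1 := by
    have h : ∀ᵐ r ∂lam, 0 < r ∧ r < 1 := by
      unfold lam
      exact (ae_restrict_mem measurableSet_Ioo)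
    exact hfst.quasiMeasurePreserving.ae h
  have htm : ∀ j : ℕ, Measurable (fun p : ℝ × S => p.1 ^ j * O^[j] f p.2) := fun j =>
    (measurable_fst.pow_const j).mul ((hOf j).comp measurable_snd)
  have htL : ∀ j : ℕ, MemLp (fun p : ℝ × S => p.1 ^ j * O^[j] f p.2) 2 (nuh ν) := by
    intro j
    have h1 : MemLp (fun p : ℝ × S => O^[j] f p.2) 2 (nuh ν) :=
      (hit f hf j).comp_measurePreserving hsnd
    refine h1.mono (htm j).aestronglyMeasurable ?_
    filter_upwards [hae1] with p hp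
    rw [norm_mul]
    have : ‖p.1 ^ j‖ ≤ 1 := by
      rw [Real.norm_eq_abs, abs_of_pos (pow_pos hp.1 j)]
      exact pow_le_one₀ hp.1.le hp.2.le
    calc ‖p.1 ^ j‖ * ‖O^[j] f p.2‖ ≤ 1 * ‖O^[j] f p.2‖ :=
          mul_le_mul_of_nonneg_right this (norm_nonneg _)
      _ = ‖O^[j] f p.2‖ := one_mul _
  have hFm : Measurable (fun p : ℝ × S => ∑ j ∈ range n, p.1 ^ j * O^[j] f p.2) :=
    Finset.measurable_fun_sum _ fun j _ => htm j
  have hFL : MemLp (fun p : ℝ × S => ∑ j ∈ range n, p.1 ^ j * O^[j] f p.2) 2 (nuh ν) :=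
    memLp_finsetSum _ fun j _ => htL j
  have hint : Integrable (fun p : ℝ × S => (Set.Iio R).indicator 1 p.1 *
      (∑ j ∈ range n, p.1 ^ j * O^[j] f p.2) ^ 2) (lam.prod ν) := by
    have h0 : Integrable (fun p : ℝ × S => (∑ j ∈ range n, p.1 ^ j * O^[j] f p.2) ^ 2)
        (lam.prod ν) := hFL.integrable_sq
    refine h0.mono ?_ (Eventually.of_forall fun p => ?_)
    · exact (((measurable_one.indicator measurableSet_Iio).comp measurable_fst).mul
        (hFm.pow_const 2)).aestronglyMeasurable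
    · rw [norm_mul]
      have : ‖(Set.Iio R).indicator (1 : ℝ → ℝ) p.1‖ ≤ 1 := by
        simp only [Set.indicator]
        split_ifs <;> simp
      calc _ ≤ 1 * ‖(∑ j ∈ range n, p.1 ^ j * O^[j] f p.2) ^ 2‖ :=
            mul_le_mul_of_nonneg_right this (norm_nonneg _)
        _ = _ := one_mul _
  have hFub : ∫ p : ℝ × S, (Set.Iio R).indicator 1 p.1 *
      (∑ j ∈ range n, p.1 ^ j * O^[j] f p.2) ^ 2 ∂(nuh ν)
      = ∫ r, (∫ x, (Set.Iio R).indicator 1 r * (∑ j ∈ range n, r ^ j * O^[j] f x) ^ 2 ∂ν)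
        ∂lam := by
    show ∫ p : ℝ × S, (Set.Iio R).indicator 1 p.1 *
      (∑ j ∈ range n, p.1 ^ j * O^[j] f p.2) ^ 2 ∂(lam.prod ν) = _
    rw [integral_prod _ hint]
  rw [hFub]
  have hinner : ∀ r : ℝ, ∫ x, (Set.Iio R).indicator 1 r *
      (∑ j ∈ range n, r ^ j * O^[j] f x) ^ 2 ∂ν
      = (Set.Iio R).indicator (fun r => ‖∑ j ∈ range n, r ^ j • (A ^ j) f'‖ ^ 2) r := by
    intro r
    rw [integral_const_mul]
    have hs : MemLp (fun x => ∑ j ∈ range n, r ^ j * O^[j] f x) 2 ν :=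
      memLp_finsetSum _ fun j _ => (hit f hf j).const_mul (r ^ j)
    have e1 : ∑ j ∈ range n, r ^ j • (A ^ j) f'
        = hs.toLp (fun x => ∑ j ∈ range n, r ^ j * O^[j] f x) := by
      rw [← toLp_sum ν (fun j => r ^ j) (fun n => O^[n] f) (fun n => hit f hf n) n hs]
      refine sum_congr rfl fun j _ => ?_
      rw [hf', hpow f hf j]
    rw [← normsq_toLp ν _ hs, ← e1]
    simp only [Set.indicator, Set.mem_Iio]
    split_ifs
    · simp
    · simp
  simp_rw [hinner]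
  unfold lam
  rw [setIntegral_indicator measurableSet_Iio]
  have hset : Set.Ioo (0:ℝ) 1 ∩ Set.Iio R = Set.Ioo 0 R := by
    ext r
    simp only [Set.mem_inter_iff, Set.mem_Ioo, Set.mem_Iio]
    constructor
    · rintro ⟨⟨a, b⟩, c⟩; exact ⟨a, c⟩
    · rintro ⟨a, c⟩; exact ⟨⟨a, c.trans hR1⟩, c⟩
  rw [hset, intervalIntegral.integral_of_le hR0.le, integral_Ioc_eq_integral_Ioo]

end Pool.Agent.N749.ME
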