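import Pool.Agent.N939.ME.Stm3

/-!
PROJECT ME, piece ME32 (S_RS2): existence of the resolvent from locally uniform bounds (helper749).
-/

set_option autoImplicit false
open MeasureTheory ProbabilityTheory Filter Topology Finset
open scoped Classical
open Pool.Agent.N939.ME

namespace Pool.Agent.N749.ME

/-- Fatou for squares -/
theorem fatou_sq {α : Type} [MeasurableSpace α] (μ : Measure α) (G : ℕ → α → ℝ) (g : α → ℝ)
    (hG : ∀ n, Measurable (G n)) (hg : Measurable g)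
    (hi : ∀ n, Integrable (fun x => G n x ^ 2) μ) (B : ℝ) (hB : ∀ n, ∫ x, G n x ^ 2 ∂μ ≤ B)
    (ht : ∀ᵐ x ∂μ, Tendsto (fun n => G n x) atTop (𝓝 (g x))) :
    MemLp g 2 μ ∧ ∫ x, g x ^ 2 ∂μ ≤ B := by
  have h1 : ∫⁻ x, ENNReal.ofReal (g x ^ 2) ∂μ ≤ ENNReal.ofReal B := by
    have h2 : ∫⁻ x, ENNReal.ofReal (g x ^ 2) ∂μ
        = ∫⁻ x, liminf (fun n => ENNReal.ofReal (G n x ^ 2)) atTop ∂μ := by
      refine lintegral_congr_ae ?_
      filter_upwards [ht] with x hx
      have : Tendsto (fun n => ENNReal.ofReal (G n x ^ 2)) atTop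
          (𝓝 (ENNReal.ofReal (g x ^ 2))) := ENNReal.tendsto_ofReal (hx.pow 2)
      exact this.liminf_eq.symm
    rw [h2]
    refine (lintegral_liminf_le fun n => ((hG n).pow_const 2).ennreal_ofReal).trans ?_
    have h3 : ∀ n, ∫⁻ x, ENNReal.ofReal (G n x ^ 2) ∂μ ≤ ENNReal.ofReal B := by
      intro n
      rw [← ofReal_integral_eq_lintegral_ofReal (hi n)
        (Eventually.of_forall fun x => sq_nonneg _)]
      exact ENNReal.ofReal_le_ofReal (hB n)
    calc liminf (fun n => ∫⁻ x, ENNReal.ofReal (G n x ^ 2) ∂μ) atTop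
        ≤ liminf (fun _ : ℕ => ENNReal.ofReal B) atTop :=
          liminf_le_liminf (Eventually.of_forall h3)
      _ = ENNReal.ofReal B := liminf_const _
  have hint : Integrable (fun x => g x ^ 2) μ := by
    refine ⟨(hg.pow_const 2).aestronglyMeasurable, ?_⟩
    rw [hasFiniteIntegral_iff_ofReal (Eventually.of_forall fun x => sq_nonneg _)]
    exact h1.trans_lt ENNReal.ofReal_lt_top
  refine ⟨(memLp_two_iff_integrable_sq hg.aestronglyMeasurable).2 hint, ?_⟩
  have hB0 : 0 ≤ B := (integral_nonneg fun x => sq_nonneg _).trans (hB 0)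
  rw [← ofReal_integral_eq_lintegral_ofReal hint
    (Eventually.of_forall fun x => sq_nonneg _)] at h1
  exact (ENNReal.ofReal_le_ofReal_iff hB0).1 h1

/-- almost every sequence `a_j(x)` grows at most linearly -/
theorem ae_growth {S : Type} [MeasurableSpace S] (ν : Measure S)
    (a : ℕ → S → ℝ) (ha : ∀ j, Measurable (a j)) (ha2 : ∀ j, MemLp (a j) 2 ν)
    (K : ℝ) (hK : ∀ j, ∫ x, a j x ^ 2 ∂ν ≤ K) :
    ∀ᵐ x ∂ν, ∀ r : ℝ, 0 < r → r < 1 → Summable (fun j => r ^ j * a j x) := by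
  have hK0 : 0 ≤ K := (integral_nonneg fun x => sq_nonneg _).trans (hK 0)
  have hsum : Summable (fun j : ℕ => K * (1 / ((j:ℝ) + 1) ^ 2)) := by
    refine Summable.mul_left _ ?_
    have h := (summable_nat_add_iff 1).2 (Real.summable_one_div_nat_pow.2 one_lt_two)
    simpa using h
  have h1 : ∫⁻ x, ∑' j : ℕ, ENNReal.ofReal (a j x ^ 2 * (1 / ((j:ℝ) + 1) ^ 2)) ∂ν ≠ ⊤ := by
    rw [lintegral_tsum fun j => (((ha j).pow_const 2).mul_const _).ennreal_ofReal.aemeasurable]
    have h2 : ∀ j : ℕ, ∫⁻ x, ENNReal.ofReal (a j x ^ 2 * (1 / ((j:ℝ) + 1) ^ 2)) ∂ν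
        ≤ ENNReal.ofReal (K * (1 / ((j:ℝ) + 1) ^ 2)) := by
      intro j
      have hp : (0:ℝ) ≤ 1 / ((j:ℝ) + 1) ^ 2 := by positivity
      rw [← ofReal_integral_eq_lintegral_ofReal ((ha2 j).integrable_sq.mul_const _)
        (Eventually.of_forall fun x => mul_nonneg (sq_nonneg _) hp), integral_mul_const]
      exact ENNReal.ofReal_le_ofReal (mul_le_mul_of_nonneg_right (hK j) hp)
    refine ne_top_of_le_ne_top ?_ (ENNReal.tsum_le_tsum h2)
    rw [← ENNReal.ofReal_tsum_of_nonneg (fun j => by positivity) hsum]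
    exact ENNReal.ofReal_ne_top
  have h3 := ae_lt_top (Measurable.tsum fun j =>
    (((ha j).pow_const 2).mul_const (1 / ((j:ℝ) + 1) ^ 2)).ennreal_ofReal) h1
  filter_upwards [h3] with x hx r hr0 hr1
  set M : ℝ := (∑' j : ℕ, ENNReal.ofReal (a j x ^ 2 * (1 / ((j:ℝ) + 1) ^ 2))).toReal with hM
  have hM0 : 0 ≤ M := ENNReal.toReal_nonneg
  have h4 : ∀ j : ℕ, a j x ^ 2 ≤ M * ((j:ℝ) + 1) ^ 2 := by
    intro j
    have h5 : ENNReal.ofReal (a j x ^ 2 * (1 / ((j:ℝ) + 1) ^ 2))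
        ≤ ∑' j : ℕ, ENNReal.ofReal (a j x ^ 2 * (1 / ((j:ℝ) + 1) ^ 2)) := ENNReal.le_tsum j
    have h6 : a j x ^ 2 * (1 / ((j:ℝ) + 1) ^ 2) ≤ M := by
      rw [hM]
      exact (ENNReal.ofReal_le_iff_le_toReal hx.ne).1 h5
    have hp : (0:ℝ) < ((j:ℝ) + 1) ^ 2 := by positivity
    rw [mul_one_div, div_le_iff₀ hp] at h6
    exact h6
  have h7 : ∀ j : ℕ, ‖r ^ j * a j x‖ ≤ Real.sqrt M * (((j:ℝ) + 1) * r ^ j) := by
    intro j
    have h8 : |a j x| ≤ Real.sqrt M * ((j:ℝ) + 1) := by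
      have hj : (0:ℝ) ≤ (j:ℝ) + 1 := by positivity
      rw [← Real.sqrt_sq hj, ← Real.sqrt_mul hM0]
      exact Real.abs_le_sqrt (h4 j)
    rw [norm_mul, Real.norm_eq_abs, Real.norm_eq_abs, abs_of_pos (pow_pos hr0 j)]
    nlinarith [pow_pos hr0 j]
  refine Summable.of_norm_bounded ?_ h7
  refine Summable.mul_left _ ?_
  have h9 : Summable (fun j : ℕ => (j:ℝ) ^ 1 * r ^ j) :=
    summable_pow_mul_geometric_of_norm_lt_one 1 (by rwa [Real.norm_eq_abs, abs_of_pos hr0])
  have h10 : Summable (fun j : ℕ => r ^ j) := summable_geometric_of_lt_one hr0.le hr1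
  refine (h9.add h10).congr fun j => ?_
  ring

theorem rs2 : S_RS2 := by
  intro S mS ν _ a P ha ha2 hK' hC' hP hPsub hPR hPn
  obtain ⟨K, hK⟩ := hK'
  obtain ⟨C, hC⟩ := hC'
  have hK0 : 0 ≤ K := (integral_nonneg fun x => sq_nonneg _).trans (hK 0)
  -- basic facts on `nuh`
  have hsnd : MeasurePreserving (Prod.snd : ℝ × S → S) (nuh ν) ν := by
    unfold nuh; exact measurePreserving_snd
  have hfst : MeasurePreserving (Prod.fst : ℝ × S → ℝ) (nuh ν) lam := by
    unfold nuh; exact measurePreserving_fst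
  have hae1 : ∀ᵐ p ∂(nuh ν), 0 < p.1 ∧ p.1 < 1 := by
    have h : ∀ᵐ r ∂lam, 0 < r ∧ r < 1 := by
      unfold lam
      exact (ae_restrict_mem measurableSet_Ioo)
    exact hfst.quasiMeasurePreserving.ae h
  have hae2 : ∀ᵐ p ∂(nuh ν), ∀ r : ℝ, 0 < r → r < 1 → Summable (fun j => r ^ j * a j p.2) :=
    hsnd.quasiMeasurePreserving.ae (ae_growth ν a ha ha2 K hK)
  set F : ℕ → ℝ × S → ℝ := fun n p => ∑ j ∈ range n, p.1 ^ j * a j p.2 with hF
  have hterm : ∀ (i j : ℕ), Measurable (fun p : ℝ × S => p.1 ^ i * a j p.2) := fun i j =>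
    (measurable_fst.pow_const i).mul ((ha j).comp measurable_snd)
  have htermL : ∀ (i j : ℕ), MemLp (fun p : ℝ × S => p.1 ^ i * a j p.2) 2 (nuh ν) := by
    intro i j
    have h1 : MemLp (fun p : ℝ × S => a j p.2) 2 (nuh ν) :=
      (ha2 j).comp_measurePreserving hsnd
    refine h1.mono (hterm i j).aestronglyMeasurable ?_
    filter_upwards [hae1] with p hp
    rw [norm_mul]
    have : ‖p.1 ^ i‖ ≤ 1 := by
      rw [Real.norm_eq_abs, abs_of_pos (pow_pos hp.1 i)]
      exact pow_le_one₀ hp.1.le hp.2.le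
    calc ‖p.1 ^ i‖ * ‖a j p.2‖ ≤ 1 * ‖a j p.2‖ :=
          mul_le_mul_of_nonneg_right this (norm_nonneg _)
      _ = ‖a j p.2‖ := one_mul _
  have hFm : ∀ n, Measurable (F n) := fun n =>
    Finset.measurable_fun_sum _ fun j _ => hterm j j
  have hFL : ∀ n, MemLp (F n) 2 (nuh ν) := fun n =>
    memLp_finsetSum _ fun j _ => htermL j j
  -- the limit
  obtain ⟨Φ, hΦm, hΦ⟩ : ∃ Φ : ℝ × S → ℝ, Measurable Φ ∧
      ∀ᵐ p ∂(nuh ν), Tendsto (fun n => F n p) atTop (𝓝 (Φ p)) := by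
    refine measurable_limit_of_tendsto_metrizable_ae (fun n => (hFm n).aemeasurable) ?_
    filter_upwards [hae1, hae2] with p h1 h2
    exact ⟨_, (h2 p.1 h1.1 h1.2).hasSum.tendsto_sum_nat⟩
  -- indicator
  set E : ℝ → ℝ × S → ℝ := fun R p => (Set.Iio R).indicator 1 p.1 with hE
  have hEm : ∀ R, Measurable (E R) := fun R =>
    ((measurable_one.indicator measurableSet_Iio).comp measurable_fst)
  have hE01 : ∀ R p, E R p = 0 ∨ E R p = 1 := by
    intro R p
    simp only [hE, Set.indicator]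
    split_ifs
    · right; rfl
    · left; rfl
  have hE1 : ∀ R p, p.1 < R → E R p = 1 := by
    intro R p h
    simp only [hE, Set.indicator, Set.mem_Iio, h, if_true]
    rfl
  have hE0 : ∀ R p, ¬ p.1 < R → E R p = 0 := by
    intro R p h
    simp only [hE, Set.indicator, Set.mem_Iio, h, if_false]
  have hEb : ∀ R p, ‖E R p‖ ≤ 1 := by
    intro R p
    rcases hE01 R p with h | h <;> rw [h] <;> simp
  have hEL : ∀ (R : ℝ) (h : ℝ × S → ℝ), MemLp h 2 (nuh ν) → Measurable h →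
      MemLp (fun p => E R p * h p) 2 (nuh ν) := by
    intro R h hL hm
    refine hL.mono ((hEm R).mul hm).aestronglyMeasurable (Eventually.of_forall fun p => ?_)
    rw [norm_mul]
    calc ‖E R p‖ * ‖h p‖ ≤ 1 * ‖h p‖ := mul_le_mul_of_nonneg_right (hEb R p) (norm_nonneg _)
      _ = ‖h p‖ := one_mul _
  -- `Φ` is in `L²`
  have hΦL : MemLp Φ 2 (nuh ν) := by
    have hR : ∀ k : ℕ, (0:ℝ) < 1 - 1 / ((k:ℝ) + 2) ∧ 1 - 1 / ((k:ℝ) + 2) < 1 := by
      intro k
      have h2 : (0:ℝ) < (k:ℝ) + 2 := by positivity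
      have h3 : 1 / ((k:ℝ) + 2) < 1 := by
        rw [div_lt_one h2]; linarith [(Nat.cast_nonneg k : (0:ℝ) ≤ k)]
      have h4 : 0 < 1 / ((k:ℝ) + 2) := by positivity
      constructor <;> linarith
    choose n0 hn0 using fun k : ℕ => hC (1 - 1 / ((k:ℝ) + 2)) (hR k).1 (hR k).2
    refine (fatou_sq (nuh ν)
      (fun k p => E (1 - 1 / ((k:ℝ) + 2)) p * F (max k (n0 k)) p) Φ
      (fun k => (hEm _).mul (hFm _)) hΦm
      (fun k => (hEL _ _ (hFL _) (hFm _)).integrable_sq) C (fun k => ?_) ?_).1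
    · have h := hn0 k (max k (n0 k)) (le_max_right _ _)
      refine le_trans (le_of_eq ?_) h
      refine integral_congr_ae (Eventually.of_forall fun p => ?_)
      show (E (1 - 1 / ((k:ℝ) + 2)) p * F (max k (n0 k)) p) ^ 2
        = E (1 - 1 / ((k:ℝ) + 2)) p * F (max k (n0 k)) p ^ 2
      rcases hE01 (1 - 1 / ((k:ℝ) + 2)) p with h | h <;> rw [h] <;> ring
    · filter_upwards [hΦ, hae1] with p h1 h2
      have h3 : Tendsto (fun k : ℕ => max k (n0 k)) atTop atTop :=
        tendsto_atTop_mono (fun k => le_max_left _ _) tendsto_id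
      have h4 := h1.comp h3
      refine h4.congr' ?_
      have h5 : Tendsto (fun k : ℕ => 1 - 1 / ((k:ℝ) + 2)) atTop (𝓝 (1 - 0)) := by
        refine tendsto_const_nhds.sub ?_
        refine Tendsto.div_atTop tendsto_const_nhds ?_
        exact tendsto_atTop_add_const_right _ _ tendsto_natCast_atTop_atTop
      rw [sub_zero] at h5
      have h6 : ∀ᶠ k : ℕ in atTop, p.1 < 1 - 1 / ((k:ℝ) + 2) :=
        h5.eventually_const_lt h2.2
      filter_upwards [h6] with k hk
      show F (max k (n0 k)) p = E _ p * F (max k (n0 k)) p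
      rw [hE1 _ _ hk, one_mul]
  -- tails
  have htail : ∀ R : ℝ, 0 < R → R < 1 → ∀ n : ℕ,
      ∫ p, (E R p * (Φ p - F n p)) ^ 2 ∂(nuh ν) ≤ K * (R ^ n / (1 - R)) ^ 2 := by
    intro R hR0 hR1 n
    have h1R : (0:ℝ) < 1 - R := by linarith
    have hgeo : ∀ m, ∑ j ∈ Ico n m, R ^ j ≤ R ^ n / (1 - R) := by
      intro m
      rcases le_or_gt n m with h | h
      · rw [geom_sum_Ico' hR1.ne h]
        refine div_le_div_of_nonneg_right ?_ h1R.le
        linarith [pow_pos hR0 m]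
      · rw [Ico_eq_empty (by omega), sum_empty]
        positivity
    refine (fatou_sq (nuh ν) (fun m p => E R p * (F (n + m) p - F n p))
      (fun p => E R p * (Φ p - F n p)) (fun m => (hEm R).mul ((hFm _).sub (hFm _)))
      ((hEm R).mul (hΦm.sub (hFm n)))
      (fun m => (hEL R _ ((hFL _).sub (hFL _)) ((hFm _).sub (hFm _))).integrable_sq) _
      (fun m => ?_) ?_).2
    · have hpt : ∀ᵐ p ∂(nuh ν), (E R p * (F (n + m) p - F n p)) ^ 2
          ≤ R ^ n / (1 - R) * ∑ j ∈ Ico n (n + m), R ^ j * a j p.2 ^ 2 := by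
        filter_upwards [hae1] with p hp
        have hnn : 0 ≤ R ^ n / (1 - R) * ∑ j ∈ Ico n (n + m), R ^ j * a j p.2 ^ 2 := by
          refine mul_nonneg (by positivity) (sum_nonneg fun j _ => by positivity)
        by_cases hpR : p.1 < R
        · rw [hE1 R p hpR, one_mul]
          have e : F (n + m) p - F n p = ∑ j ∈ Ico n (n + m), p.1 ^ j * a j p.2 := by
            simp only [hF]
            rw [sum_Ico_eq_sub _ (Nat.le_add_right n m)]
          rw [e]
          have cs := Finset.sum_mul_sq_le_sq_mul_sq (Ico n (n + m))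
            (fun j => Real.sqrt (p.1 ^ j)) (fun j => Real.sqrt (p.1 ^ j) * a j p.2)
          have e1 : ∀ j, Real.sqrt (p.1 ^ j) * (Real.sqrt (p.1 ^ j) * a j p.2)
              = p.1 ^ j * a j p.2 := by
            intro j
            rw [← mul_assoc, Real.mul_self_sqrt (pow_nonneg hp.1.le j)]
          have e2 : ∀ j, Real.sqrt (p.1 ^ j) ^ 2 = p.1 ^ j := fun j =>
            Real.sq_sqrt (pow_nonneg hp.1.le j)
          have e3 : ∀ j, (Real.sqrt (p.1 ^ j) * a j p.2) ^ 2 = p.1 ^ j * a j p.2 ^ 2 := by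
            intro j
            rw [mul_pow, e2]
          simp only [e1, e2, e3] at cs
          refine cs.trans ?_
          have hpj : ∀ j : ℕ, p.1 ^ j ≤ R ^ j := fun j =>
            pow_le_pow_left₀ hp.1.le hpR.le j
          refine mul_le_mul ?_ ?_ (sum_nonneg fun j _ =>
            mul_nonneg (pow_nonneg hp.1.le j) (sq_nonneg _)) (by positivity)
          · exact (sum_le_sum fun j _ => hpj j).trans (hgeo _)
          · exact sum_le_sum fun j _ => mul_le_mul_of_nonneg_right (hpj j) (sq_nonneg _)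
        · rw [hE0 R p hpR, zero_mul]
          simpa using hnn
      have hint1 : ∀ j, Integrable (fun p : ℝ × S => R ^ j * a j p.2 ^ 2) (nuh ν) := fun j =>
        (((ha2 j).comp_measurePreserving hsnd).integrable_sq).const_mul _
      have hval : ∀ j, ∫ p, R ^ j * a j p.2 ^ 2 ∂(nuh ν) ≤ R ^ j * K := by
        intro j
        rw [integral_const_mul]
        refine mul_le_mul_of_nonneg_left ?_ (pow_nonneg hR0.le j)
        have h9 : ∫ x, a j x ^ 2 ∂((nuh ν).map Prod.snd) = ∫ p, a j p.2 ^ 2 ∂(nuh ν) :=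
          integral_map measurable_snd.aemeasurable ((ha j).pow_const 2).aestronglyMeasurable
        rw [hsnd.map_eq] at h9
        rw [← h9]
        exact hK j
      have hmono : ∫ p, (E R p * (F (n + m) p - F n p)) ^ 2 ∂(nuh ν)
          ≤ ∫ p, R ^ n / (1 - R) * ∑ j ∈ Ico n (n + m), R ^ j * a j p.2 ^ 2 ∂(nuh ν) := by
        refine integral_mono_ae
          (hEL R _ ((hFL _).sub (hFL _)) ((hFm _).sub (hFm _))).integrable_sq ?_ hpt
        exact (integrable_finsetSum _ fun j _ => hint1 j).const_mul _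
      refine hmono.trans ?_
      rw [integral_const_mul, integral_finsetSum _ fun j _ => hint1 j]
      have h2 : ∑ j ∈ Ico n (n + m), ∫ p, R ^ j * a j p.2 ^ 2 ∂(nuh ν)
          ≤ K * (R ^ n / (1 - R)) := by
        calc ∑ j ∈ Ico n (n + m), ∫ p, R ^ j * a j p.2 ^ 2 ∂(nuh ν)
            ≤ ∑ j ∈ Ico n (n + m), R ^ j * K := sum_le_sum fun j _ => hval j
          _ = K * ∑ j ∈ Ico n (n + m), R ^ j := by rw [← sum_mul, mul_comm]
          _ ≤ K * (R ^ n / (1 - R)) := mul_le_mul_of_nonneg_left (hgeo _) hK0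
      calc R ^ n / (1 - R) * ∑ j ∈ Ico n (n + m), ∫ p, R ^ j * a j p.2 ^ 2 ∂(nuh ν)
          ≤ R ^ n / (1 - R) * (K * (R ^ n / (1 - R))) :=
            mul_le_mul_of_nonneg_left h2 (by positivity)
        _ = K * (R ^ n / (1 - R)) ^ 2 := by ring
    · filter_upwards [hΦ] with p hp
      have h3 : Tendsto (fun m : ℕ => n + m) atTop atTop :=
        tendsto_atTop_mono (fun m => Nat.le_add_left m n) tendsto_id
      exact ((hp.comp h3).sub_const _).const_mul _
  obtain ⟨hPΦm, hPΦL, -⟩ := hP Φ hΦL hΦm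
  -- the equation on `r < R`
  have heq : ∀ R : ℝ, 0 < R → R < 1 →
      ∀ᵐ p ∂(nuh ν), E R p * (a 0 p.2 + p.1 * P Φ p - Φ p) = 0 := by
    intro R hR0 hR1
    have h1R : (0:ℝ) < 1 - R := by linarith
    set u : ℝ × S → ℝ := fun p => E R p * (a 0 p.2 + p.1 * P Φ p - Φ p) with hu
    have hrPL : MemLp (fun p : ℝ × S => p.1 * P Φ p) 2 (nuh ν) := by
      refine hPΦL.mono (measurable_fst.mul hPΦm).aestronglyMeasurable ?_
      filter_upwards [hae1] with p hp
      rw [norm_mul]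
      have : ‖p.1‖ ≤ 1 := by rw [Real.norm_eq_abs, abs_of_pos hp.1]; exact hp.2.le
      calc ‖p.1‖ * ‖P Φ p‖ ≤ 1 * ‖P Φ p‖ := mul_le_mul_of_nonneg_right this (norm_nonneg _)
        _ = ‖P Φ p‖ := one_mul _
    have ha0L : MemLp (fun p : ℝ × S => a 0 p.2) 2 (nuh ν) :=
      (ha2 0).comp_measurePreserving hsnd
    have ha0m : Measurable (fun p : ℝ × S => a 0 p.2) := (ha 0).comp measurable_snd
    have hrPm : Measurable (fun p : ℝ × S => p.1 * P Φ p) := measurable_fst.mul hPΦm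
    have huL : MemLp u 2 (nuh ν) :=
      hEL R _ ((ha0L.add hrPL).sub hΦL) ((ha0m.add hrPm).sub hΦm)
    have hbd : ∀ n : ℕ, ∫ p, u p ^ 2 ∂(nuh ν)
        ≤ 2 * (K * (R ^ n / (1 - R)) ^ 2) + 2 * (K * (R ^ (n + 1) / (1 - R)) ^ 2) := by
      intro n
      set h : ℝ × S → ℝ := fun p => E R p * (Φ p - F n p) with hh
      have hdm : Measurable (fun p => Φ p - F n p) := hΦm.sub (hFm n)
      have hdL : MemLp (fun p => Φ p - F n p) 2 (nuh ν) := hΦL.sub (hFL n)
      have hhm : Measurable h := (hEm R).mul hdm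
      have hhL : MemLp h 2 (nuh ν) := hEL R _ hdL hdm
      obtain ⟨hPhm, hPhL, hPhb⟩ := hP h hhL hhm
      have q1 : P h =ᵐ[nuh ν] fun p => E R p * P (fun p => Φ p - F n p) p :=
        hPR _ R hdL hdm
      have q2 : P (fun p => Φ p - F n p) =ᵐ[nuh ν] fun p => P Φ p - P (F n) p :=
        hPsub Φ (F n) hΦL hΦm (hFL n) (hFm n)
      have q3 : P (F n) =ᵐ[nuh ν] fun p => ∑ j ∈ range n, p.1 ^ j * a (j + 1) p.2 := hPn n
      have hsh : ∀ p : ℝ × S, F (n + 1) p
          = a 0 p.2 + p.1 * ∑ j ∈ range n, p.1 ^ j * a (j + 1) p.2 := by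
        intro p
        simp only [hF]
        rw [sum_range_succ', mul_sum, add_comm]
        simp only [pow_zero, one_mul]
        congr 1
        refine sum_congr rfl fun j _ => ?_
        ring
      -- pointwise
      have hpt : ∀ᵐ p ∂(nuh ν), u p ^ 2
          ≤ 2 * P h p ^ 2 + 2 * (E R p * (Φ p - F (n + 1) p)) ^ 2 := by
        filter_upwards [hae1, q1, q2, q3] with p hp c1 c2 c3
        have e : u p = p.1 * P h p - E R p * (Φ p - F (n + 1) p) := by
          simp only [hu]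
          rw [c1, c2, c3, hsh p]
          ring
        have hx : (p.1 * P h p) ^ 2 ≤ P h p ^ 2 := by
          rw [mul_pow]
          have : p.1 ^ 2 ≤ 1 := pow_le_one₀ hp.1.le hp.2.le
          nlinarith [sq_nonneg (P h p)]
        rw [e]
        nlinarith [sq_nonneg (p.1 * P h p + E R p * (Φ p - F (n + 1) p))]
      have hd1L : MemLp (fun p => E R p * (Φ p - F (n + 1) p)) 2 (nuh ν) :=
        hEL R _ (hΦL.sub (hFL (n + 1))) (hΦm.sub (hFm (n + 1)))
      have hm1 : ∫ p, u p ^ 2 ∂(nuh ν) ≤ ∫ p, (2 * P h p ^ 2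
          + 2 * (E R p * (Φ p - F (n + 1) p)) ^ 2) ∂(nuh ν) :=
        integral_mono_ae huL.integrable_sq
          ((hPhL.integrable_sq.const_mul 2).add (hd1L.integrable_sq.const_mul 2)) hpt
      refine hm1.trans ?_
      rw [integral_add (hPhL.integrable_sq.const_mul 2) (hd1L.integrable_sq.const_mul 2),
        integral_const_mul, integral_const_mul]
      have t1 := htail R hR0 hR1 n
      have t2 := htail R hR0 hR1 (n + 1)
      have t3 : ∫ p, P h p ^ 2 ∂(nuh ν) ≤ K * (R ^ n / (1 - R)) ^ 2 := hPhb.trans t1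
      linarith
    have hlim : Tendsto (fun n : ℕ => 2 * (K * (R ^ n / (1 - R)) ^ 2)
        + 2 * (K * (R ^ (n + 1) / (1 - R)) ^ 2)) atTop (𝓝 0) := by
      have g1 : Tendsto (fun n : ℕ => R ^ n) atTop (𝓝 0) :=
        tendsto_pow_atTop_nhds_zero_of_lt_one hR0.le hR1
      have g2 : Tendsto (fun n : ℕ => R ^ (n + 1)) atTop (𝓝 0) :=
        g1.comp (tendsto_add_atTop_nat 1)
      have g3 := ((((g1.div_const (1 - R)).pow 2).const_mul K).const_mul 2).add
        ((((g2.div_const (1 - R)).pow 2).const_mul K).const_mul 2)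
      simpa using g3
    have hz : ∫ p, u p ^ 2 ∂(nuh ν) = 0 :=
      le_antisymm (ge_of_tendsto' hlim hbd) (integral_nonneg fun p => sq_nonneg _)
    have hz2 := (integral_eq_zero_iff_of_nonneg (fun p => sq_nonneg (u p))
      huL.integrable_sq).1 hz
    filter_upwards [hz2] with p hp
    exact pow_eq_zero_iff (two_ne_zero) |>.1 hp
  refine ⟨Φ, hΦm, hΦL, ?_⟩
  have hall : ∀ᵐ p ∂(nuh ν), ∀ k : ℕ,
      E (1 - 1 / ((k:ℝ) + 2)) p * (a 0 p.2 + p.1 * P Φ p - Φ p) = 0 := by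
    rw [ae_all_iff]
    intro k
    have h2 : (0:ℝ) < (k:ℝ) + 2 := by positivity
    have h3 : 1 / ((k:ℝ) + 2) < 1 := by
      rw [div_lt_one h2]; linarith [(Nat.cast_nonneg k : (0:ℝ) ≤ k)]
    have h4 : 0 < 1 / ((k:ℝ) + 2) := by positivity
    exact heq _ (by linarith) (by linarith)
  filter_upwards [hall, hae1] with p h1 h2
  have h5 : Tendsto (fun k : ℕ => 1 - 1 / ((k:ℝ) + 2)) atTop (𝓝 (1 - 0)) := by
    refine tendsto_const_nhds.sub ?_
    refine Tendsto.div_atTop tendsto_const_nhds ?_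
    exact tendsto_atTop_add_const_right _ _ tendsto_natCast_atTop_atTop
  rw [sub_zero] at h5
  obtain ⟨k, hk⟩ := (h5.eventually_const_lt h2.2).exists
  have h6 := h1 k
  rw [hE1 _ _ hk, one_mul] at h6
  linarith

end Pool.Agent.N749.ME
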